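import Pool.Agent.Helper2.LD.St1b

/-!
# LD project, module Nm: a new name at an old owner
-/

set_option autoImplicit false

namespace Pool.Agent.Helper80.LD

open Pool.Agent.Helper2.LD

variable {K : Type}

private theorem gid_of_same {f g : Fb K} (h : Fb.same f g) :
    (f.gid = none ∧ g.gid = none) ∨
      ∃ κ c c', f.gid = some (κ, c) ∧ g.gid = some (κ, c') := by
  cases f <;> cases g <;> simp [Fb.same, Fb.gid] at h ⊢
  all_goals first | exact h | exact h.1 | exact h.1.symm | exact h.symm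

/-- Choice of the copy. -/
private theorem copy_Nm (l : List (Fb K × Fb K)) (h : NmRel l) (κ : K) (c : Bool) :
    ∃ c', ∀ a ∈ l, (a.1.gid = some (κ, c) ↔ a.2.gid = some (κ, c')) := by
  obtain ⟨h1, h2, h3⟩ := h
  by_cases e1 : ∃ a ∈ l, a.1.gid = some (κ, c)
  · obtain ⟨a, ha, hg⟩ := e1
    rcases gid_of_same (h1 a ha) with ⟨h4, h5⟩ | ⟨κ1, c1, c1', h4, h5⟩
    · rw [h4] at hg
      exact absurd hg (by simp)
    · rw [hg] at h4
      simp only [Option.some.injEq, Prod.mk.injEq] at h4
      obtain ⟨rfl, rfl⟩ := h4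
      refine ⟨c1', fun b hb => ?_⟩
      have := h2 b hb a ha
      rw [hg, h5] at this
      exact this
  · push Not at e1
    by_cases e2 : ∃ a ∈ l, a.1.gid = some (κ, !c)
    · obtain ⟨a, ha, hg⟩ := e2
      rcases gid_of_same (h1 a ha) with ⟨h4, h5⟩ | ⟨κ1, c1, c1', h4, h5⟩
      · rw [h4] at hg
        exact absurd hg (by simp)
      · rw [hg] at h4
        simp only [Option.some.injEq, Prod.mk.injEq] at h4
        obtain ⟨rfl, rfl⟩ := h4
        refine ⟨!c1', fun b hb => ⟨fun h => absurd h (e1 b hb), fun h => ?_⟩⟩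
        exfalso
        rcases gid_of_same (h1 b hb) with ⟨h6, h7⟩ | ⟨κ2, c2, c2', h6, h7⟩
        · rw [h] at h7
          exact absurd h7 (by simp)
        · rw [h] at h7
          simp only [Option.some.injEq, Prod.mk.injEq] at h7
          obtain ⟨rfl, rfl⟩ := h7
          have hc : c2 = !c := by
            have := e1 b hb
            rw [h6] at this
            cases c <;> cases c2 <;> simp_all
          rw [hc, ← hg] at h6
          have := (h2 b hb a ha).1 h6
          rw [h, h5] at this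
          cases c1' <;> simp at this
    · push Not at e2
      refine ⟨c, fun b hb => ⟨fun h => absurd h (e1 b hb), fun h => ?_⟩⟩
      exfalso
      rcases gid_of_same (h1 b hb) with ⟨h6, h7⟩ | ⟨κ2, c2, c2', h6, h7⟩
      · rw [h] at h7
        exact absurd h7 (by simp)
      · rw [h] at h7
        simp only [Option.some.injEq, Prod.mk.injEq] at h7
        obtain ⟨rfl, rfl⟩ := h7
        have h8 := e1 b hb
        have h9 := e2 b hb
        rw [h6] at h8 h9
        cases c <;> cases c2 <;> simp_all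

private theorem cons_Nm (l : List (Fb K × Fb K)) (h : NmRel l) (f f' : Fb K)
    (h1 : Fb.same f f') (h2 : ∀ a ∈ l, (f.gid = a.1.gid ↔ f'.gid = a.2.gid))
    (h3 : ∀ a ∈ l, (f = a.1 ↔ f' = a.2)) : NmRel ((f, f') :: l) := by
  obtain ⟨g1, g2, g3⟩ := h
  refine ⟨?_, ?_, ?_⟩
  · intro a ha
    rcases List.mem_cons.1 ha with rfl | ha
    · exact h1
    · exact g1 a ha
  · intro a ha b hb
    rcases List.mem_cons.1 ha with rfl | ha <;> rcases List.mem_cons.1 hb with rfl | hb
    · simp
    · exact h2 b hb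
    · exact (eq_comm.trans (h2 a ha)).trans eq_comm
    · exact g2 a ha b hb
  · intro a ha b hb
    rcases List.mem_cons.1 ha with rfl | ha <;> rcases List.mem_cons.1 hb with rfl | hb
    · simp
    · exact h3 b hb
    · exact (eq_comm.trans (h3 a ha)).trans eq_comm
    · exact g3 a ha b hb

/-- A new name with a given gadget whose copy is determined. -/
private theorem fin_Nm (l : List (Fb K × Fb K)) (h : NmRel l) (κ : K) (c c' : Bool)
    (hc : ∀ a ∈ l, (a.1.gid = some (κ, c) ↔ a.2.gid = some (κ, c'))) (f f' : Fb K)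
    (hf : f.gid = some (κ, c)) (hf' : f'.gid = some (κ, c'))
    (h1 : Fb.same f f') (h3 : ∀ a ∈ l, (f = a.1 ↔ f' = a.2)) : NmRel ((f, f') :: l) := by
  refine cons_Nm l h f f' h1 (fun a ha => ?_) h3
  rw [hf, hf']
  exact (eq_comm.trans (hc a ha)).trans eq_comm

/-- The index of a leaf. -/
private def idx : Fb K → ℕ
  | Fb.lf _ _ i => i
  | _ => 0

open Classical in
private theorem leaf_Nm (m : ℕ) (code : K → Finset ℕ) (L L' : Finset K)
    (l : List (Fb K × Fb K)) (κ : K) (c c' : Bool) (i : ℕ) (hm : 1 ≤ m)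
    (hf : Fb.ok m code L (Fb.lf κ c i))
    (hok : ∀ a ∈ l, Fb.ok m code L a.1 ∧ Fb.ok m code L' a.2) (h : NmRel l)
    (hc : ∀ a ∈ l, (a.1.gid = some (κ, c) ↔ a.2.gid = some (κ, c')))
    (hn : ∀ a ∈ l, a.1 ≠ Fb.lf κ c i)
    (hl : l.length < m ∨ (l.length ≤ m ∧ ∃ a ∈ l,
      (∀ j, a.1 ≠ Fb.lf κ c j) ∨ ∃ j c' j', a = (Fb.lf κ c j, Fb.lf κ c' j') ∧
        ((c = true ∧ κ ∈ L) ↔ (c' = true ∧ κ ∈ L')))) :
    ∃ i', Fb.ok m code L' (Fb.lf κ c' i') ∧ ∀ a ∈ l, a.2 ≠ Fb.lf κ c' i' := by
  obtain ⟨h1, h2, h3⟩ := h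
  -- leaves correspond to leaves
  have hleaf : ∀ a ∈ l, ∀ j', a.2 = Fb.lf κ c' j' → ∃ j, a.1 = Fb.lf κ c j := by
    intro a ha j' hj
    have hs := h1 a ha
    have hg := (hc a ha).2 (by rw [hj]; rfl)
    rw [hj] at hs
    cases ha1 : a.1 with
    | lf κ1 c1 j =>
      rw [ha1] at hg
      simp only [Fb.gid, Option.some.injEq, Prod.mk.injEq] at hg
      obtain ⟨rfl, rfl⟩ := hg
      exact ⟨j, rfl⟩
    | root => rw [ha1] at hs; exact absurd hs (by simp [Fb.same])
    | a1 _ _ => rw [ha1] at hs; exact absurd hs (by simp [Fb.same])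
    | a2 _ _ => rw [ha1] at hs; exact absurd hs (by simp [Fb.same])
    | r _ _ => rw [ha1] at hs; exact absurd hs (by simp [Fb.same])
    | mk _ _ _ _ => rw [ha1] at hs; exact absurd hs (by simp [Fb.same])
  let p : Fb K × Fb K → Bool := fun a => decide (∃ j', a.2 = Fb.lf κ c' j')
  let T : Finset (Fb K × Fb K) := (l.filter p).toFinset
  have hT : ∀ a, a ∈ T ↔ a ∈ l ∧ ∃ j', a.2 = Fb.lf κ c' j' := by
    intro a
    simp [T, p]
  have hTl : T.card ≤ (l.filter p).length := List.toFinset_card_le _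
  let A2 : Finset ℕ := T.image fun a => idx a.2
  let A1 : Finset ℕ := T.image fun a => idx a.1
  have hA2 : A2.card ≤ T.card := Finset.card_image_le
  have hA1 : A1.card = T.card := by
    refine Finset.card_image_of_injOn ?_
    intro a ha b hb hab
    rw [Finset.mem_coe, hT] at ha hb
    obtain ⟨ha, ja, hja⟩ := ha
    obtain ⟨hb, jb, hjb⟩ := hb
    obtain ⟨ia, hia⟩ := hleaf a ha ja hja
    obtain ⟨ib, hib⟩ := hleaf b hb jb hjb
    simp only [hia, hib, idx] at hab
    subst hab
    have e1 : a.1 = b.1 := hia.trans hib.symm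
    have e2 : a.2 = b.2 := (h3 a ha b hb).1 e1
    exact Prod.ext e1 e2
  -- it is enough to find an index outside `A2`
  have hout : ∀ n, A2.card < n → (∀ i' < n, Fb.ok m code L' (Fb.lf κ c' i')) →
      ∃ i', Fb.ok m code L' (Fb.lf κ c' i') ∧ ∀ a ∈ l, a.2 ≠ Fb.lf κ c' i' := by
    intro n hn' hok'
    obtain ⟨i', hi1, hi2⟩ := Finset.exists_mem_notMem_of_card_lt_card
      (s := A2) (t := Finset.range n) (by rw [Finset.card_range]; exact hn')
    refine ⟨i', hok' i' (Finset.mem_range.1 hi1), fun a ha h0 => hi2 ?_⟩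
    refine Finset.mem_image.2 ⟨a, (hT a).2 ⟨ha, i', h0⟩, ?_⟩
    rw [h0]
    rfl
  have hokm : ∀ i' < m, Fb.ok m code L' (Fb.lf κ c' i') := fun i' hi => Or.inl hi
  rcases hl with hl | ⟨hl, a, ha, hl'⟩
  · refine hout m ?_ hokm
    have := List.length_filter_le p l
    omega
  · rcases hl' with hl' | ⟨j, c1, j', rfl, hst⟩
    · refine hout m ?_ hokm
      have hlt : (l.filter p).length < l.length := by
        rw [List.length_filter_lt_length_iff_exists]
        refine ⟨a, ha, ?_⟩
        simp only [p, decide_eq_true_eq]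
        rintro ⟨j', hj'⟩
        obtain ⟨j, hj⟩ := hleaf a ha j' hj'
        exact hl' j hj
      omega
    · have hc1 : c1 = c' := by
        have := (hc _ ha).1 rfl
        simpa [Fb.gid] using this
      subst hc1
      by_cases hs : c = true ∧ κ ∈ L
      · refine hout (m + 1) ?_ ?_
        · have := List.length_filter_le p l
          omega
        · intro i' hi
          have h5 := hst.1 hs
          by_cases h6 : i' < m
          · exact Or.inl h6
          · exact Or.inr ⟨by omega, h5.1, h5.2⟩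
      · refine hout m ?_ hokm
        have hlt : ∀ j, Fb.ok m code L (Fb.lf κ c j) → j < m := by
          intro j hj
          rcases hj with hj | ⟨_, hj⟩
          · exact hj
          · exact absurd hj hs
        have hsub : A1 ⊆ (Finset.range m).erase i := by
          intro j0 hj0
          obtain ⟨b, hb, rfl⟩ := Finset.mem_image.1 hj0
          rw [hT] at hb
          obtain ⟨hb, jb, hjb⟩ := hb
          obtain ⟨ib, hib⟩ := hleaf b hb jb hjb
          have hb1 : idx b.1 = ib := by rw [hib]; rfl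
          rw [hb1, Finset.mem_erase, Finset.mem_range]
          refine ⟨?_, ?_⟩
          · rintro rfl
            exact hn b hb hib
          · refine hlt ib ?_
            rw [← hib]
            exact (hok b hb).1
        have hcard := Finset.card_le_card hsub
        rw [Finset.card_erase_of_mem (Finset.mem_range.2 (hlt i hf)), Finset.card_range] at hcard
        omega

theorem pNm : StNm := by
  intro K m code L L' l f hm hf hok h hl
  -- the case of an old name
  by_cases hold : ∃ a ∈ l, a.1 = f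
  · obtain ⟨a, ha, rfl⟩ := hold
    refine ⟨a.2, (hok a ha).2, ?_⟩
    obtain ⟨g1, g2, g3⟩ := h
    exact cons_Nm l ⟨g1, g2, g3⟩ a.1 a.2 (g1 a ha) (fun b hb => g2 a ha b hb)
      (fun b hb => g3 a ha b hb)
  push Not at hold
  cases f with
  | root =>
    refine ⟨Fb.root, trivial, ?_⟩
    have hr : ∀ a ∈ l, a.2 ≠ Fb.root := by
      intro a ha h0
      have hs := h.1 a ha
      rw [h0] at hs
      apply hold a ha
      cases ha1 : a.1 with
      | root => rfl
      | a1 _ _ => rw [ha1] at hs; exact absurd hs (by simp [Fb.same])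
      | a2 _ _ => rw [ha1] at hs; exact absurd hs (by simp [Fb.same])
      | r _ _ => rw [ha1] at hs; exact absurd hs (by simp [Fb.same])
      | lf _ _ _ => rw [ha1] at hs; exact absurd hs (by simp [Fb.same])
      | mk _ _ _ _ => rw [ha1] at hs; exact absurd hs (by simp [Fb.same])
    refine cons_Nm l h _ _ trivial (fun a ha => ?_) (fun a ha => ?_)
    · rcases gid_of_same (h.1 a ha) with ⟨h4, h5⟩ | ⟨κ1, c1, c1', h4, h5⟩
      · rw [h4, h5]
      · rw [h4, h5]
        simp [Fb.gid]
    · exact ⟨fun h0 => absurd h0.symm (hold a ha), fun h0 => absurd h0.symm (hr a ha)⟩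
  | a1 κ c =>
    obtain ⟨c', hc⟩ := copy_Nm l h κ c
    refine ⟨Fb.a1 κ c', trivial, fin_Nm l h κ c c' hc _ _ rfl rfl rfl (fun a ha => ?_)⟩
    refine ⟨fun h0 => absurd h0.symm (hold a ha), fun h0 => ?_⟩
    exfalso
    have hs := h.1 a ha
    have hg := (hc a ha).2 (by rw [← h0]; rfl)
    rw [← h0] at hs
    apply hold a ha
    cases ha1 : a.1 <;> rw [ha1] at hs hg <;> simp_all [Fb.same, Fb.gid]
  | a2 κ c =>
    obtain ⟨c', hc⟩ := copy_Nm l h κ c
    refine ⟨Fb.a2 κ c', trivial, fin_Nm l h κ c c' hc _ _ rfl rfl rfl (fun a ha => ?_)⟩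
    refine ⟨fun h0 => absurd h0.symm (hold a ha), fun h0 => ?_⟩
    exfalso
    have hs := h.1 a ha
    have hg := (hc a ha).2 (by rw [← h0]; rfl)
    rw [← h0] at hs
    apply hold a ha
    cases ha1 : a.1 <;> rw [ha1] at hs hg <;> simp_all [Fb.same, Fb.gid]
  | r κ c =>
    obtain ⟨c', hc⟩ := copy_Nm l h κ c
    refine ⟨Fb.r κ c', trivial, fin_Nm l h κ c c' hc _ _ rfl rfl rfl (fun a ha => ?_)⟩
    refine ⟨fun h0 => absurd h0.symm (hold a ha), fun h0 => ?_⟩
    exfalso
    have hs := h.1 a ha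
    have hg := (hc a ha).2 (by rw [← h0]; rfl)
    rw [← h0] at hs
    apply hold a ha
    cases ha1 : a.1 <;> rw [ha1] at hs hg <;> simp_all [Fb.same, Fb.gid]
  | mk κ c i j =>
    obtain ⟨c', hc⟩ := copy_Nm l h κ c
    refine ⟨Fb.mk κ c' i j, hf, fin_Nm l h κ c c' hc _ _ rfl rfl ⟨rfl, rfl, rfl⟩
      (fun a ha => ?_)⟩
    refine ⟨fun h0 => absurd h0.symm (hold a ha), fun h0 => ?_⟩
    exfalso
    have hs := h.1 a ha
    have hg := (hc a ha).2 (by rw [← h0]; rfl)
    rw [← h0] at hs
    apply hold a ha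
    cases ha1 : a.1 <;> rw [ha1] at hs hg <;> simp_all [Fb.same, Fb.gid]
  | lf κ c i =>
    obtain ⟨c', hc⟩ := copy_Nm l h κ c
    obtain ⟨i', hi1, hi2⟩ := leaf_Nm m code L L' l κ c c' i hm hf hok h hc hold (hl κ c i rfl)
    refine ⟨Fb.lf κ c' i', hi1, fin_Nm l h κ c c' hc _ _ rfl rfl rfl (fun a ha => ?_)⟩
    exact ⟨fun h0 => absurd h0.symm (hold a ha), fun h0 => absurd h0.symm (hi2 a ha)⟩

end Pool.Agent.Helper80.LD
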